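import Pool.Agent.Y522.Stm6
import Pool.Agent.Y522.Tools
import Pool.Agent.Y674.SH.Final3

/-!
# SH3-Final: the compact case, directionally monotone homeomorphisms (project SH3)
-/

set_option autoImplicit false

open Set Filter Topology Metric Function MeasureTheory
open scoped Manifold ContDiff

noncomputable section

namespace Pool.Agent.Y852.SH
open Pool.Agent.Y522 Pool.Agent.Y833.SH Pool.Agent.Y674.SH

theorem mcore (hG : StMGlob) (m : ℕ) (M N X : Type) [TopologicalSpace M] [TopologicalSpace N]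
    [TopologicalSpace X]
    [ChartedSpace (EuclideanHalfSpace (m + 1)) M] [ChartedSpace (EuclideanHalfSpace (m + 1)) N]
    [ChartedSpace (E (m + 1)) X]
    [IsManifold (𝓡∂ (m + 1)) ∞ M] [IsManifold (𝓡∂ (m + 1)) ∞ N] [IsManifold (𝓡 (m + 1)) ∞ X]
    (ι : X → M) (hι : Injective ι) (hιr : range ι = (𝓡∂ (m + 1)).interior M)
    (hιd : ∀ x, IsLocalDiffeomorphAt (𝓡 (m + 1)) (𝓡∂ (m + 1)) ∞ ι x)
    (h : M ≃ₜ closedBall (0 : E (m + 1)) 1) (j : N ≃ₜ closedBall (0 : E (m + 1)) 1)
    (hj : ∀ y ∈ (𝓡∂ (m + 1)).interior N,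
      IsLocalDiffeomorphAt (𝓡∂ (m + 1)) (𝓡 (m + 1)) ∞ (fun y => (j y : E (m + 1))) y)
    (hb : ∀ x ∉ (𝓡∂ (m + 1)).interior M,
      IsLocalDiffeomorphAt (𝓡∂ (m + 1)) (𝓡∂ (m + 1)) ∞ (fun x => j.symm (h x)) x)
    (hc : ∀ x ∈ (𝓡∂ (m + 1)).interior M, ∃ A : E (m + 1) → M, A 0 = x ∧
      IsLocalDiffeomorphAt (𝓡 (m + 1)) (𝓡∂ (m + 1)) ∞ A 0 ∧
      ∀ v : E (m + 1), v ≠ 0 → ∃ (r : ℝ) (ℓ : E (m + 1) →L[ℝ] ℝ), 0 < r ∧
        ∀ p q : E (m + 1), ‖p‖ ≤ r → ‖q‖ ≤ r → ∀ t : ℝ, 0 < t → ‖q - p - t • v‖ ≤ r * t →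
          ℓ (h (A p)) < ℓ (h (A q))) :
    Nonempty (Diffeomorph (𝓡∂ (m + 1)) (𝓡∂ (m + 1)) M N ∞) := by
  classical
  have hK := nonLD_compact m M N X ι hι hιr hιd h j hj hb
  have hMi : ∀ x, x ∈ (𝓡∂ (m + 1)).interior M ↔ ‖(h x : E (m + 1))‖ < 1 :=
    int_iff (𝓡∂ (m + 1)) inferInstance h
  have : T2Space M := h.symm.t2Space
  have : CompactSpace M := h.symm.compactSpace
  have hιc : Continuous ι := continuous_iff_continuousAt.2 fun x => (hιd x).contMDiffAt.continuousAt
  have : T2Space X := T2Space.of_injective_continuous hι hιc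
  have hιo : IsOpenMap ι := IsLocalDiffeomorph.isOpenMap (I := 𝓡 (m + 1)) (J := 𝓡∂ (m + 1))
    (n := ∞) hιd
  have hemb : IsOpenEmbedding ι := IsOpenEmbedding.of_continuous_injective_isOpenMap hιc hι hιo
  have hmem : ∀ x, ι x ∈ (𝓡∂ (m + 1)).interior M := fun x => hιr ▸ mem_range_self x
  obtain ⟨F, hF⟩ : ∃ F : X → E (m + 1), F = fun x => (h (ι x) : E (m + 1)) := ⟨_, rfl⟩
  have hFe : ∀ x, F x = h (ι x) := fun x => by rw [hF]
  rw [← hF] at hK
  have hFn : ∀ x, ‖F x‖ < 1 := fun x => by rw [hFe]; exact (hMi _).1 (hmem x)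
  have hFc : Continuous F := by
    rw [hF]
    exact continuous_subtype_val.comp (h.continuous.comp hιc)
  have hFi : Injective F := by
    intro a b hab
    rw [hFe, hFe] at hab
    exact hι (h.injective (Subtype.ext hab))
  have hFr : range F = ball 0 1 := by
    ext y
    constructor
    · rintro ⟨x, rfl⟩
      rw [mem_ball_zero_iff]
      exact hFn x
    · intro hy
      rw [mem_ball_zero_iff] at hy
      have hyc : y ∈ closedBall (0 : E (m + 1)) 1 := by
        rw [mem_closedBall_zero_iff]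
        exact hy.le
      have h1 : h.symm ⟨y, hyc⟩ ∈ range ι := by
        rw [hιr, hMi, h.apply_symm_apply]
        exact hy
      obtain ⟨x, hx⟩ := h1
      refine ⟨x, ?_⟩
      rw [hFe, hx, h.apply_symm_apply]
  have hFo : IsOpenMap F := by
    intro U hU
    obtain ⟨W, hW, hWU⟩ := isOpen_induced_iff.1 (h.isOpenMap _ (hιo U hU))
    have : F '' U = W ∩ ball 0 1 := by
      ext y
      constructor
      · rintro ⟨x, hx, rfl⟩
        refine ⟨?_, ?_⟩
        · have : h (ι x) ∈ h '' (ι '' U) := ⟨ι x, ⟨x, hx, rfl⟩, rfl⟩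
          rw [← hWU] at this
          rw [hFe]
          exact this
        · rw [mem_ball_zero_iff]
          exact hFn x
      · rintro ⟨h1, h2⟩
        rw [← hFr] at h2
        obtain ⟨x, rfl⟩ := h2
        have h3 : h (ι x) ∈ Subtype.val ⁻¹' W := by
          rw [mem_preimage, ← hFe]
          exact h1
        rw [hWU] at h3
        obtain ⟨_, ⟨x', hx', rfl⟩, h4⟩ := h3
        refine ⟨x', hx', ?_⟩
        rw [hFe, hFe, h4]
    rw [this]
    exact hW.inter isOpen_ball
  have hFe' : IsOpenEmbedding F := IsOpenEmbedding.of_continuous_injective_isOpenMap hFc hFi hFo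
  have hD : ∀ x, ¬ LD (m + 1) F x → DMon (m + 1) F x := by
    intro x _
    obtain ⟨A, hA0, hAd, hA⟩ := hc (ι x) (hmem x)
    -- the local inverse of the inclusion
    have ha := (hιd x).localInverse_isLocalDiffeomorphAt
    have hax : (hιd x).localInverse (ι x) = x :=
      (hιd x).localInverse_left_inv (hιd x).localInverse_mem_target
    have hA' : LD (m + 1) ((hιd x).localInverse ∘ A) 0 := by
      rw [← hA0] at ha
      exact IsLocalDiffeomorphAt.comp (𝓡 (m + 1)) X hAd ha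
    have hev : ∀ᶠ z in 𝓝 (0 : E (m + 1)), ι ((hιd x).localInverse (A z)) = A z := by
      have h1 : A 0 ∈ (hιd x).localInverse.source := by
        rw [hA0]
        exact (hιd x).localInverse_mem_source
      filter_upwards [hAd.contMDiffAt.continuousAt
        ((hιd x).localInverse.open_source.mem_nhds h1)] with z hz
      exact (hιd x).localInverse_right_inv hz
    obtain ⟨δ, hδ, hδe⟩ := Metric.eventually_nhds_iff_ball.1 hev
    refine ⟨(hιd x).localInverse ∘ A, ?_, hA', ?_⟩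
    · rw [comp_apply, hA0, hax]
    · intro v hv
      obtain ⟨r, ℓ, hr, hℓ⟩ := hA v hv
      refine ⟨min r (δ / 2), ℓ, lt_min hr (by linarith), ?_⟩
      intro p q hp hq t ht hpq
      have e1 : ∀ z : E (m + 1), ‖z‖ ≤ min r (δ / 2) →
          F (((hιd x).localInverse ∘ A) z) = h (A z) := by
        intro z hz
        rw [hFe, comp_apply, hδe z]
        rw [mem_ball_zero_iff]
        have := hz.trans (min_le_right _ _)
        linarith
      rw [e1 p hp, e1 q hq]
      refine hℓ p q (hp.trans (min_le_left _ _)) (hq.trans (min_le_left _ _)) t ht (hpq.trans ?_)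
      exact mul_le_mul_of_nonneg_right (min_le_left _ _) ht.le
  obtain ⟨F', C, hC, -, hF'i, hF'r, hF'C, hF'd⟩ := hG (m + 1) X F hFe' hFr hD hK
  refine glue m M N X ι hι hιr hιd h j hj hb F' C hC hF'i ?_ ?_ hF'd
  · rw [hF'r, hF]
  · intro x hx
    rw [hF'C x hx, hFe]

/-- **The compact case**, directionally monotone homeomorphisms. -/
theorem mcompact (hG : StMGlob) : StMCompact := by
  intro m M N _ _ _ _ _ _ h j hj hb hc
  let := csI (M := M) (𝓡∂ (m + 1))
  have := mfI (M := M) (𝓡∂ (m + 1))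
  exact mcore hG m M N ((𝓡∂ (m + 1)).interior M) Subtype.val Subtype.val_injective
    Subtype.range_val (fun x => ldiff_val (𝓡∂ (m + 1)) x) h j hj hb hc

end Pool.Agent.Y852.SH
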